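import Pool.Agent.Helper880_R3.Res

/-!
# All fibres with large integral parameter of a family with few central periods: the torsor form of the period conjecture

Let `X_x` be a family of smooth projective varieties over `ℚ` over an open part of the line, `0` any rational point of the
line (also a point of degeneration, with unipotent local monodromy), and let `P(x) = C exp (M log x) Z(x)` be the period
matrix of (a direct factor of) its cohomology near `0`: `Z` is a matrix of G-functions over `ℚ`, `M` is nilpotent and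
rational (the logarithm of the local monodromy, `0` if there is no degeneration) and `C` is the complex matrix of the
central periods (the periods of `X_0`, or of the limit mixed Hodge structure). Let `M_0` be another object over `ℚ` with
period matrix `C₀`, and

  `c = C₀ ⊕ P(1 / t_1) ⊕ … ⊕ P(1 / t_N)`,

the period matrix of `M_0 ⊕ ⨁ M_{t_j}`. Grothendieck's conjecture implies that the torsor of motivic isomorphisms of
`H_dR` and `H_B` is contained, up to connected components, in all `K`-subtorsors `T` with `c ∈ T`, for all number fields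
`K`. Theorems of this kind are known for almost all `t` (`BigMonodromyTorsors`, `GeneralFamilies`), and nothing was known for
**all** large `t` or for members of a thin set, except for our theorem on the hyperelliptic curves `y² = f(x) (x - 1 / t)`
(`MP_f11a48_ag`, AllLargeParameters). Here we show that there are **no exceptions** for all families, of any
weight and dimension, if the number `s` of the central periods is small: up to one common factor the entries of `C₀` and `C`
are algebraic over a field generated by `s` numbers.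

**Theorem.** Let `D`, `N`, `C₀`, `C` be given. There are `G` (which depends only on the family) and `E` such that for **all**
`t_1, …, t_N` which are distinct, congruent modulo `G`, with `(t_i - t_j + 2)^E ≤ t_j` (for `N = 1` these are all `t ≥ 2^E`),
**all** number fields `K` with `[K : ℚ] ≤ D` and **all** `K`-subtorsors `T` (defined by equations of any degree) with `c ∈ T`:

1. `T` is stable under `1 × ∏ exp (C 𝔤 C⁻¹)`. Here `𝔤` is a Lie algebra of infinitesimal symmetries `X` of `Z` (the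
   relations of `Z` over `ℂ[x]` hold to first order for `(1 + ε X) Z`; it is sufficient that `exp (s X)` is in the
   commutator group of the differential Galois group, the Zariski closure of the monodromy group) which is normalised by
   `M`, and the number `s` of periods is small with respect to `𝔤`: `𝔤` is semisimple (or has only quotients with trivial
   centre) and all its proper subalgebras have codimension larger than `s` (than `s + 1` if `M ≠ 0`). We show that for the
   Lie algebra of the special isometry group of `B` it is sufficient that `s ≤ n - 2` if `B` is alternating, `4 s < n` if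
   `B` is symmetric and `2 s + 2 < n` if `B = 0` (with `s + 1` in place of `s` if `M ≠ 0`).
2. Let the monodromy group be Zariski dense in a classical group, so that `𝔤` contains the Lie algebra of the special
   isometry group of `B`. Then `T` is, in the torsor of all isomorphisms `x_0 ⊕ ⨁ X_j` which respect the
   polarisations, the full inverse image of its image under `(x_0, det X_1, …, det X_N)` (without the determinants in the
   alternating case).
3. In the absolute case `M_0 = ℚ(-1)`, `C₀ = 2 π i` (this object is in the category generated by `M_t` if its weight is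
   not zero) `T` is equal to the torsor `T_pol` of all isomorphisms which respect the polarisations (and determinants) as
   soon as it is contained in it. As the torsor of motivic isomorphisms is contained in `T_pol`, both are equal to `T_pol`,
   and so is the smallest `K`-subtorsor through `c`.

Examples. (a) All pencils `X_t : F_0 + F_1 / t = 0` of hypersurfaces of degree `d` through a Fermat hypersurface `F_0` with
Zariski dense monodromy in `Sp` or `O` (all Lefschetz pencils): the central periods are products of values of `Γ` at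
`a / d`, so that `s ≤ φ(d) / 2 + 1`, but the rank `n` is about `d^(dim X + 1)`. (b) All families through a member whose
Jacobian is isogenous to the power of a CM elliptic curve, or a power of an elliptic curve. (c) Families of abelian
varieties through a CM point, `s ≤ g ≤ 2 g - 2` for `g ≥ 2`. (d) The hypergeometric families of Calabi-Yau varieties of
rank `2 m ≥ 6` at the point of maximal degeneration, where the periods are `2 π i, ζ(3), …, ζ(2 m - 1)`.

Only subtorsors are treated: the Zariski closure of the period point is not contained in any smaller subtorsor.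

Proof (`Pool/Agent/Helper880_R3`). By the theorem on linear independence of values of G-functions at many points
(helper118, `Y118/HX/WinM`) the relations of bounded degree over `ℚ` between the `Z(1 / t_j)` and the `log (t_j / t_1)` are
preserved along the curves `exp (s X_j) Z(1 / t_j)`, `X_j ∈ 𝔤`. If the theorem is false take a sequence of
counterexamples and pass to the ultraproduct `ℂ^*`: for each `A ∈ 𝔤` and `j` there is a derivation `δ` of `ℂ^*` over
`ℚ^*` with `δ z_j = A z_j` and `δ z_i = 0` for `i ≠ j`, where `z_j = exp (-M log (t_j / t_1)) Z(1 / t_j)`. The ultraproduct `W`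
of the `Lie (T)` is normalised by `A + C'⁻¹ δ(C')`, `C' = C exp (-M log t_1)`, although the degrees of the equations of `T`
are not bounded, and as the `C'⁻¹ δ(C')` modulo scalars are in a space of dimension at most `r`, the normaliser of `W`
in `𝔤` has codimension at most `r`; so it is `𝔤`. The second half, that `W` contains `𝔤`, uses commutators and the
theorem of Jordan on finite linear groups for the component groups. For the classical Lie algebras we show (also over
`ℂ^*`) that there are no subalgebras of small codimension.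
-/

set_option autoImplicit false

open PowerSeries Filter
open scoped Matrix

namespace Pool.Agent.Results.MP_caab05_ag.AllFibresFewCentralPeriods

/-- an integer polynomial as a power series with rational coefficients -/
noncomputable def toQ (P : Polynomial ℤ) : PowerSeries ℚ := ((P.map (Int.castRingHom ℚ) : Polynomial ℚ) : PowerSeries ℚ)

/-- the power series `P(u^e)` -/
noncomputable def atPow (e : ℕ) (P : Polynomial ℤ) : PowerSeries ℂ :=
  ((Polynomial.expand ℂ e (P.map (Int.castRingHom ℂ)) : Polynomial ℂ) : PowerSeries ℂ)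

/-- the matrices `G_s` over `ℤ[x]` with `T^s y^(s) = G_s y` for all solutions `y` of `T y' = A y` -/
noncomputable def iter {r : ℕ} (T : Polynomial ℤ) (A : Fin r → Fin r → Polynomial ℤ) : ℕ → Fin r → Fin r → Polynomial ℤ
  | 0 => fun i j => if i = j then 1 else 0
  | s + 1 => fun i j => T * Polynomial.derivative (iter T A s i j) + ∑ l, iter T A s i l * A l j -
      (s : Polynomial ℤ) * (Polynomial.derivative T * iter T A s i j)

/-- The system `T y' = A y` has a fundamental matrix of solutions of the form `u^(-M) ∑_n Φ_n(u) (log u)^n` with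
`u^e = x` and convergent power series `Φ_n`: the point `0` is regular or a regular singularity with rational
exponents. -/
def QuasiUnipotent {r : ℕ} (T : Polynomial ℤ) (A : Fin r → Fin r → Polynomial ℤ) : Prop :=
  ∃ (e M : ℕ) (K : ℝ) (Φ : Matrix (Fin r) (Fin r) (Polynomial (PowerSeries ℂ))), 1 ≤ e ∧ Φ.det ≠ 0 ∧
    (∀ i j n m, ‖coeff m ((Φ i j).coeff n)‖ ≤ K ^ (m + 1)) ∧
    ∀ i j n, atPow e T * (X * PowerSeries.derivative ℂ ((Φ i j).coeff n) +
        ((n : PowerSeries ℂ) + 1) * (Φ i j).coeff (n + 1) - (M : PowerSeries ℂ) * (Φ i j).coeff n) =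
      (e : PowerSeries ℂ) * X ^ e * ∑ l, atPow e (A i l) * (Φ l j).coeff n

/-- `h_1, ..., h_r` are G-functions with rational coefficients which solve the differential system `T y' = A y`, with
the conditions of Siegel and Galochkin, and `0` is a regular point or a regular singularity with rational exponents of
the system. -/
structure GFamily {r : ℕ} (T : Polynomial ℤ) (A : Fin r → Fin r → Polynomial ℤ) (h : Fin r → PowerSeries ℚ) : Prop where
  /-- the denominator is not zero -/
  T_ne : T ≠ 0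
  /-- the differential equations -/
  ode : ∀ i, toQ T * PowerSeries.derivative ℚ (h i) = ∑ j, toQ (A i j) * h j
  /-- the coefficients have geometric growth -/
  size : ∃ C : ℝ, ∀ i m, |((coeff m (h i) : ℚ) : ℝ)| ≤ C ^ (m + 1)
  /-- the common denominators of the coefficients have geometric growth -/
  den : ∃ C : ℝ, ∀ m : ℕ, ∃ d : ℕ, 0 < d ∧ (d : ℝ) ≤ C ^ (m + 1) ∧ ∀ i, ∀ j ≤ m, ∃ a : ℤ, (d : ℚ) * coeff j (h i) = a
  /-- Galochkin's condition: the common denominators of the matrices `G_s / s!` have geometric growth -/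
  galochkin : ∃ C : ℝ, ∀ m : ℕ, ∃ d : ℕ, 0 < d ∧ (d : ℝ) ≤ C ^ (m + 1) ∧ ∀ s ≤ m, ∀ i j,
    ∃ H : Polynomial ℤ, (d : Polynomial ℤ) * iter T A s i j = (s.factorial : Polynomial ℤ) * H
  /-- the local exponents at `0` are rational and the singularity is regular -/
  regular : QuasiUnipotent T A

section family
variable {n : ℕ}

/-- the entries of a matrix -/
def entries (Z : Matrix (Fin n) (Fin n) (PowerSeries ℚ)) : Fin (n * n) → PowerSeries ℚ := fun a =>
  Z (finProdFinEquiv.symm a).1 (finProdFinEquiv.symm a).2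

/-- rational matrices as complex matrices -/
def toC (M : Matrix (Fin n) (Fin n) ℚ) : Matrix (Fin n) (Fin n) ℂ := M.map fun x : ℚ => (x : ℂ)

/-- the matrix `Z(1 / t)` -/
noncomputable def value (Z : Matrix (Fin n) (Fin n) (PowerSeries ℚ)) (t : ℕ) : Matrix (Fin n) (Fin n) ℂ :=
  Matrix.of fun i j => ((∑' k : ℕ, ((coeff k (Z i j) : ℚ) : ℝ) * (1 / (t : ℝ)) ^ k : ℝ) : ℂ)

/-- the period matrix `C exp (M log x) Z(x)` at `x = 1 / t` -/
noncomputable def period (C : Matrix (Fin n) (Fin n) ℂ) (M : Matrix (Fin n) (Fin n) ℚ)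
    (Z : Matrix (Fin n) (Fin n) (PowerSeries ℚ)) (t : ℕ) : Matrix (Fin n) (Fin n) ℂ :=
  C * (NormedSpace.exp ((-((Real.log (t : ℝ) : ℝ) : ℂ)) • toC M) * value Z t)

/-- the matrix of power series with complex coefficients -/
noncomputable def overC (Z : Matrix (Fin n) (Fin n) (PowerSeries ℚ)) : Matrix (Fin n) (Fin n) (PowerSeries ℂ) :=
  Z.map (PowerSeries.map (algebraMap ℚ ℂ))

/-- `X` is an infinitesimal symmetry of `Z`: for all polynomial relations `R(x, Z(x)) = 0` over `ℂ[x]` the derivative of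
`R(x, (1 + ε X) Z(x))` at `ε = 0` is zero. -/
def Symmetry (Z : Matrix (Fin n) (Fin n) (PowerSeries ℚ)) (X : Matrix (Fin n) (Fin n) ℂ) : Prop :=
  ∀ R : MvPolynomial (Fin n × Fin n) (Polynomial ℂ), MvPolynomial.aeval (fun b => overC Z b.1 b.2) R = 0 →
    ∑ b, MvPolynomial.aeval (fun b => overC Z b.1 b.2) (MvPolynomial.pderiv b R) *
      (X.map (PowerSeries.C (R := ℂ)) * overC Z) b.1 b.2 = 0

/-- `𝔤` is closed under commutators -/
def IsLieAlg (𝔤 : Submodule ℂ (Matrix (Fin n) (Fin n) ℂ)) : Prop := ∀ x ∈ 𝔤, ∀ y ∈ 𝔤, x * y - y * x ∈ 𝔤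

/-- all quotients `𝔤 / I` have trivial centre; semisimple Lie algebras have this property -/
def CentreFree (𝔤 : Submodule ℂ (Matrix (Fin n) (Fin n) ℂ)) : Prop :=
  ∀ I : Submodule ℂ (Matrix (Fin n) (Fin n) ℂ), I ≤ 𝔤 → (∀ x ∈ 𝔤, ∀ y ∈ I, x * y - y * x ∈ I) →
    ∀ x ∈ 𝔤, (∀ y ∈ 𝔤, x * y - y * x ∈ I) → x ∈ I

/-- all proper subalgebras of `𝔤` have codimension larger than `r` -/
def NoSmall (r : ℕ) (𝔤 : Submodule ℂ (Matrix (Fin n) (Fin n) ℂ)) : Prop :=
  ∀ 𝔥 : Submodule ℂ (Matrix (Fin n) (Fin n) ℂ), 𝔥 ≤ 𝔤 → IsLieAlg 𝔥 →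
    Module.finrank ℂ 𝔤 ≤ Module.finrank ℂ 𝔥 + r → 𝔤 ≤ 𝔥

/-- nondegenerate alternating forms -/
def Symplectic (B : Matrix (Fin n) (Fin n) ℂ) : Prop := IsUnit B ∧ Bᵀ = -B

/-- The form is zero, or nondegenerate and alternating, or nondegenerate and symmetric of rank different from `2`. -/
def Classical (B : Matrix (Fin n) (Fin n) ℂ) : Prop := B = 0 ∨ Symplectic B ∨ (IsUnit B ∧ Bᵀ = B ∧ n ≠ 2)

/-- The form is zero and `2 r + 2 < n`, or it is nondegenerate and alternating and `r ≤ n - 2`, or nondegenerate and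
symmetric and `4 r < n`, `n ≠ 2`. -/
def Small (r : ℕ) (B : Matrix (Fin n) (Fin n) ℂ) : Prop :=
  (B = 0 ∧ 2 * r + 2 < n) ∨ (Symplectic B ∧ r + 2 ≤ n) ∨ (IsUnit B ∧ Bᵀ = B ∧ n ≠ 2 ∧ 4 * r < n)

/-- `X` is in the Lie algebra of the group of all matrices of determinant `1` which respect `B` -/
def IsInfinitesimal (B X : Matrix (Fin n) (Fin n) ℂ) : Prop := X.trace = 0 ∧ X * B + B * Xᵀ = 0

/-- `𝔤` is a Lie algebra, all its quotients have trivial centre, and all proper subalgebras have codimension larger than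
`r`; or it is the Lie algebra of the special isometry group of a form for which `Small r B` holds (this case is in fact
contained in the first one, as we show). -/
def Admissible (r : ℕ) (𝔤 : Submodule ℂ (Matrix (Fin n) (Fin n) ℂ)) : Prop :=
  (IsLieAlg 𝔤 ∧ CentreFree 𝔤 ∧ NoSmall r 𝔤) ∨ ∃ B, Small r B ∧ ∀ X, X ∈ 𝔤 ↔ IsInfinitesimal B X

/-- up to a common factor the entries of `C₀` and `C` are algebraic over a field generated by `s` numbers -/
def FewPeriods {r : ℕ} (s : ℕ) (C₀ : Matrix (Fin r) (Fin r) ℂ) (C : Matrix (Fin n) (Fin n) ℂ) : Prop :=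
  ∃ (b : Fin s → ℂ) (κ : ℂ), κ ≠ 0 ∧ (∀ i j, IsAlgebraic (IntermediateField.adjoin ℚ (Set.range b)) (κ * C₀ i j)) ∧
    ∀ i j, IsAlgebraic (IntermediateField.adjoin ℚ (Set.range b)) (κ * C i j)

end family

/-- the numbers `t_j` are distinct and congruent modulo `G`, and `(t_i - t_j + 2)^E ≤ t_j` -/
def InWindow (G E : ℕ) {N : ℕ} (t : Fin N → ℕ) : Prop :=
  Function.Injective t ∧ (∀ i j, t i ≡ t j [MOD G]) ∧ ∀ i j, (t i - t j + 2) ^ E ≤ t j

/-- `T` is (the set of complex points of) a `K`-subtorsor of `GL_B = Iso (M_dR, M_B)`: it is closed under `x y⁻¹ z`, and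
it is defined in `GL_B` by polynomials with coefficients in `K`. -/
def IsSubtorsor (K : Subfield ℂ) {B : Type} [Fintype B] [DecidableEq B] (T : Set (Matrix B B ℂ)) : Prop :=
  (∀ x ∈ T, ∀ y ∈ T, ∀ z ∈ T, x * y⁻¹ * z ∈ T) ∧ ∃ I : Set (MvPolynomial (B × B) K), ∀ x : Matrix B B ℂ, x ∈ T ↔
    IsUnit x ∧ ∀ p ∈ I, MvPolynomial.eval (fun b => x b.1 b.2) (MvPolynomial.map (algebraMap K ℂ) p) = 0

section
variable {n N r : ℕ}

/-- the block matrix `x ⊕ X_1 ⊕ … ⊕ X_N` -/
def total (x : Matrix (Fin r) (Fin r) ℂ) (X : Fin N → Matrix (Fin n) (Fin n) ℂ) :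
    Matrix (Fin r ⊕ (Fin n × Fin N)) (Fin r ⊕ (Fin n × Fin N)) ℂ :=
  Matrix.fromBlocks x 0 0 (Matrix.blockDiagonal X)

/-- the isomorphisms `X_j` respect the polarisations `Q_j` (de Rham) and `B` (Betti) up to the factors `μ_j` -/
def Respects (B : Matrix (Fin n) (Fin n) ℂ) (Q : Fin N → Matrix (Fin n) (Fin n) ℂ) (μ : Fin N → ℂ)
    (X : Fin N → Matrix (Fin n) (Fin n) ℂ) : Prop :=
  (∀ j, μ j ≠ 0) ∧ ∀ j, X j * Q j * (X j)ᵀ = μ j • B

/-- The isomorphisms `z ⊕ … ⊕ z ⊕ X_1 ⊕ … ⊕ X_N` of an `r`-fold sum of the object `ℚ(-1)` and of the `M_j` which respect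
the polarisations, with values in `ℚ(-w_j)`, and the identifications of `det M_j` with `ℚ(-m_j)` up to a twist. -/
def torsorOf (r : ℕ) (B : Matrix (Fin n) (Fin n) ℂ) (Q : Fin N → Matrix (Fin n) (Fin n) ℂ) (w m : Fin N → ℤ)
    (δ : Fin N → ℂ) : Set (Matrix (Fin r ⊕ (Fin n × Fin N)) (Fin r ⊕ (Fin n × Fin N)) ℂ) :=
  {y | ∃ z : ℂ, z ≠ 0 ∧ ∃ X : Fin N → Matrix (Fin n) (Fin n) ℂ, y = total (z • 1) X ∧
    ∀ j, X j * Q j * (X j)ᵀ = z ^ (w j) • B ∧ (Symplectic B ∨ (X j).det = δ j * z ^ (m j))}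

/-- The conclusion for one tuple of parameters; `P j` is the period matrix of the fibre. -/
def Good (D : ℕ) (C₀ : Matrix (Fin r) (Fin r) ℂ) (C : Matrix (Fin n) (Fin n) ℂ)
    (𝔤 : Submodule ℂ (Matrix (Fin n) (Fin n) ℂ)) (P : Fin N → Matrix (Fin n) (Fin n) ℂ) : Prop :=
  ∀ K : Subfield ℂ, FiniteDimensional ℚ K → Module.finrank ℚ K ≤ D →
  ∀ T : Set (Matrix (Fin r ⊕ (Fin n × Fin N)) (Fin r ⊕ (Fin n × Fin N)) ℂ), IsSubtorsor K T → total C₀ P ∈ T →
  -- 1: stability
  (∀ X : Fin N → Matrix (Fin n) (Fin n) ℂ, (∀ j, X j ∈ 𝔤) → ∀ x ∈ T,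
    total 1 (fun j => NormedSpace.exp (C * X j * C⁻¹)) * x ∈ T) ∧
  -- 2: classical monodromy groups, relative case
  (∀ B : Matrix (Fin n) (Fin n) ℂ, Classical B → (∀ X, IsInfinitesimal B X → X ∈ 𝔤) →
    ∀ (Q : Fin N → Matrix (Fin n) (Fin n) ℂ) (μ : Fin N → ℂ) (x₀ : Matrix (Fin r) (Fin r) ℂ)
      (X Y : Fin N → Matrix (Fin n) (Fin n) ℂ), Respects (C * B * Cᵀ) Q μ X → Respects (C * B * Cᵀ) Q μ Y →
      (∀ j, Symplectic B ∨ (X j).det = (Y j).det) → total x₀ X ∈ T → total x₀ Y ∈ T) ∧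
  -- 3: classical monodromy groups, absolute case
  (0 < r → C₀ = (2 * Real.pi * Complex.I : ℂ) • 1 →
    ∀ B : Matrix (Fin n) (Fin n) ℂ, Classical B → (∀ X, IsInfinitesimal B X → X ∈ 𝔤) →
    ∀ (Q : Fin N → Matrix (Fin n) (Fin n) ℂ) (w m : Fin N → ℤ) (δ : Fin N → ℂ),
      T ⊆ torsorOf r (C * B * Cᵀ) Q w m δ → T = torsorOf r (C * B * Cᵀ) Q w m δ)

end

theorem iter_eq {r : ℕ} (T : Polynomial ℤ) (A : Fin r → Fin r → Polynomial ℤ) (s : ℕ) :
    iter T A s = Pool.Agent.Y120.GH.itm T A s := by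
  induction s with
  | zero => rfl
  | succ s ih =>
    funext i j
    rw [iter, Pool.Agent.Y120.GH.itm, ih]

theorem qu_eq {r : ℕ} {T : Polynomial ℤ} {A : Fin r → Fin r → Polynomial ℤ} (h : QuasiUnipotent T A) :
    Pool.Agent.Y120.GH.QU0 T A := by
  obtain ⟨e, M, K, Φ, he, hdet, hc, heq⟩ := h
  have he0 : e ≠ 0 := by omega
  refine ⟨e, he0, M, K, Φ, hc, fun i j n => ?_, hdet⟩
  have h1 := heq i j n
  simp only [atPow] at h1
  rw [Pool.Agent.Y120.GH.expand_poly he0]
  simp only [Pool.Agent.Y120.GH.expand_poly he0]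
  exact h1

theorem gal_eq {r : ℕ} {T : Polynomial ℤ} {A : Fin r → Fin r → Polynomial ℤ} {h : Fin r → PowerSeries ℚ}
    (hG : GFamily T A h) : ∃ C : ℝ, ∀ m, ∃ d : ℕ, 0 < d ∧ (d : ℝ) ≤ C ^ (m + 1) ∧ ∀ s ≤ m, ∀ i j, ∃ H : Polynomial ℤ,
      (d : Polynomial ℤ) * Pool.Agent.Y120.GH.itm T A s i j = (s.factorial : Polynomial ℤ) * H := by
  obtain ⟨C, hC⟩ := hG.galochkin
  refine ⟨C, fun m => ?_⟩
  obtain ⟨d, h1, h2, h3⟩ := hC m
  refine ⟨d, h1, h2, fun s hs i' j' => ?_⟩
  rw [← iter_eq]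
  exact h3 s hs i' j'

theorem map_eq {n : ℕ} (M : Matrix (Fin n) (Fin n) ℚ) : toC M = Pool.Agent.Y119.HY.cm M := by
  ext i j
  rw [Pool.Agent.Y119.HY.cm_apply]
  rfl

theorem sym_inf {n : ℕ} {Z : Matrix (Fin n) (Fin n) (PowerSeries ℚ)} {X : Matrix (Fin n) (Fin n) ℂ} (h : Symmetry Z X) :
    Pool.Agent.Helper880_R3.Inf Z X := by
  intro R hR
  refine Eq.trans ?_ (h R hR)
  unfold Pool.Agent.Helper880_R3.DX
  rw [map_sum]
  refine Finset.sum_congr rfl fun b _ => ?_
  rw [map_mul, map_sum, Matrix.mul_apply]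
  refine congrArg₂ (· * ·) rfl (Finset.sum_congr rfl fun l _ => ?_)
  rw [map_mul, MvPolynomial.aeval_C, MvPolynomial.aeval_X, Matrix.map_apply, Matrix.map_apply]
  have h1 : algebraMap (Polynomial ℂ) (PowerSeries ℂ) (Polynomial.C (X b.1 l)) = PowerSeries.C (X b.1 l) :=
    Polynomial.coe_C _
  rw [h1]
  rfl

/-- the general form of the theorem -/
theorem general {n : ℕ} (hn : 0 < n) {T : Polynomial ℤ} {A : Fin (n * n) → Fin (n * n) → Polynomial ℤ}
    {Z : Matrix (Fin n) (Fin n) (PowerSeries ℚ)} (hG : GFamily T A (entries Z)) {M : Matrix (Fin n) (Fin n) ℚ}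
    (hM : M ^ n = 0) {𝔤 : Submodule ℂ (Matrix (Fin n) (Fin n) ℂ)} {r : ℕ} (hL : IsLieAlg 𝔤) (hq : CentreFree 𝔤)
    (hc : NoSmall r 𝔤) (hI : ∀ X ∈ 𝔤, Symmetry Z X) (hM𝔤 : ∀ X ∈ 𝔤, toC M * X - X * toC M ∈ 𝔤) :
    ∃ G : ℕ, 1 ≤ G ∧ ∀ (N D r₀ s : ℕ) (C₀ : Matrix (Fin r₀) (Fin r₀) ℂ) (C : Matrix (Fin n) (Fin n) ℂ), 0 < N →
      FewPeriods s C₀ C → s + (if M = 0 then 0 else 1) ≤ r → ∃ E : ℕ, ∀ t : Fin N → ℕ, InWindow G E t →
      ∀ K : Subfield ℂ, FiniteDimensional ℚ K → Module.finrank ℚ K ≤ D →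
      ∀ S : Set (Matrix (Fin r₀ ⊕ (Fin n × Fin N)) (Fin r₀ ⊕ (Fin n × Fin N)) ℂ), IsSubtorsor K S →
      total C₀ (fun j => period C M Z (t j)) ∈ S →
      ∀ X : Fin N → Matrix (Fin n) (Fin n) ℂ, (∀ j, X j ∈ 𝔤) → ∀ x ∈ S,
        total 1 (fun j => NormedSpace.exp (C * X j * C⁻¹)) * x ∈ S := by
  obtain ⟨q', C', hG'⟩ := Pool.Agent.Y120.GH.gsys_of hG.ode hG.size hG.den (gal_eq hG)
  rw [map_eq] at hM𝔤
  obtain ⟨G, hG1, h⟩ := Pool.Agent.Helper880_R3.main hn hG.T_ne hG.ode hG' (qu_eq hG.regular) hL hq hc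
    (fun X hX => sym_inf (hI X hX)) hM hM𝔤
  refine ⟨G, hG1, fun N D r₀ s C₀ C hN hfew hs => ?_⟩
  obtain ⟨E, hE⟩ := h N D r₀ s C₀ C hN hfew hs
  refine ⟨E, fun t ht K hK hKD S hS hmem X hX x hx => ?_⟩
  refine hE t ht.1 ht.2.1 ht.2.2 K hK hKD S (Pool.Agent.Y123.ST.subT_iff.1 hS) ?_ X hX x hx
  have h1 : (fun j => period C M Z (t j)) = fun j => C * (NormedSpace.exp ((-((Real.log (t j : ℝ) : ℝ) : ℂ)) •
      Pool.Agent.Y119.HY.cm M) * Pool.Agent.Y118.HV.Hv Z (t j)) := by
    funext j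
    unfold period
    rw [map_eq]
    rfl
  rw [h1] at hmem
  exact hmem

theorem small_cod {n r : ℕ} (hn : 0 < n) {B : Matrix (Fin n) (Fin n) ℂ} (h : Small r B) :
    CentreFree (Pool.Agent.Helper880_R3.lieB B) ∧ NoSmall r (Pool.Agent.Helper880_R3.lieB B) := by
  rcases h with ⟨rfl, h⟩ | ⟨⟨h1, h2⟩, h3⟩ | ⟨h1, h2, h3, h4⟩
  · exact ⟨Pool.Agent.Helper880_R3.cf_sl hn, Pool.Agent.Helper880_R3.cod_sl h⟩
  · have hB := (Matrix.isUnit_iff_isUnit_det _).1 h1
    refine ⟨Pool.Agent.Helper880_R3.cf_form (ε := -1) hB (by ring) (by rw [h2, neg_one_smul]) ?_,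
      Pool.Agent.Helper880_R3.cod_sp hB h2 (by omega) (by omega)⟩
    have h5 : (8 : ℂ) - 4 * -1 * n = ((8 + 4 * n : ℕ) : ℂ) := by
      push_cast
      ring
    rw [h5]
    exact_mod_cast (by omega : 8 + 4 * n ≠ 0)
  · have hB := (Matrix.isUnit_iff_isUnit_det _).1 h1
    refine ⟨Pool.Agent.Helper880_R3.cf_form (ε := 1) hB (by ring) (by rw [h2, one_smul]) ?_,
      Pool.Agent.Helper880_R3.cod_so hB h2 h4⟩
    intro h5
    have h6 : (n : ℂ) = ((2 : ℕ) : ℂ) := by
      push_cast
      linear_combination (-1 / 4 : ℂ) * h5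
    exact h3 (by exact_mod_cast h6)

theorem adm {n r : ℕ} (hn : 0 < n) {𝔤 : Submodule ℂ (Matrix (Fin n) (Fin n) ℂ)} (h : Admissible r 𝔤) :
    IsLieAlg 𝔤 ∧ CentreFree 𝔤 ∧ NoSmall r 𝔤 := by
  rcases h with h | ⟨B, hB, h⟩
  · exact h
  · have h1 : 𝔤 = Pool.Agent.Helper880_R3.lieB B := Submodule.ext h
    rw [h1]
    exact ⟨Pool.Agent.Helper880_R3.lieB_lie B, small_cod hn hB⟩

/-- **The theorem.** -/
theorem result (n : ℕ) (hn : 0 < n) (T : Polynomial ℤ) (A : Fin (n * n) → Fin (n * n) → Polynomial ℤ)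
    (Z : Matrix (Fin n) (Fin n) (PowerSeries ℚ)) (hG : GFamily T A (entries Z)) (M : Matrix (Fin n) (Fin n) ℚ)
    (hM : M ^ n = 0) (𝔤 : Submodule ℂ (Matrix (Fin n) (Fin n) ℂ)) (r : ℕ) (h𝔤 : Admissible r 𝔤)
    (hI : ∀ X ∈ 𝔤, Symmetry Z X) (hM𝔤 : ∀ X ∈ 𝔤, toC M * X - X * toC M ∈ 𝔤) :
    ∃ G : ℕ, 1 ≤ G ∧ ∀ (N D r₀ s : ℕ) (C₀ : Matrix (Fin r₀) (Fin r₀) ℂ) (C : Matrix (Fin n) (Fin n) ℂ), 0 < N →
      FewPeriods s C₀ C → s + (if M = 0 then 0 else 1) ≤ r → ∃ E : ℕ, ∀ t : Fin N → ℕ, InWindow G E t →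
      Good D C₀ C 𝔤 fun j => period C M Z (t j) := by
  obtain ⟨hL, hq, hc⟩ := adm hn h𝔤
  obtain ⟨G, hG1, h⟩ := general hn hG hM hL hq hc hI hM𝔤
  refine ⟨G, hG1, fun N D r₀ s C₀ C hN hfew hs => ?_⟩
  obtain ⟨E, hE⟩ := h N D r₀ s C₀ C hN hfew hs
  refine ⟨E, fun t ht K hK hKD S hS hmem => ?_⟩
  have hst := hE t ht K hK hKD S hS hmem
  have hS' := Pool.Agent.Y123.ST.subT_iff.1 hS
  have hC : IsUnit C.det := by
    have h1 := (Pool.Agent.Helper880_R3.Tot_unit (hS'.isUnit _ hmem)).2 ⟨0, hN⟩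
    have h2 := (Matrix.isUnit_iff_isUnit_det _).1 h1
    unfold period at h2
    rw [Matrix.det_mul] at h2
    exact isUnit_of_mul_isUnit_left h2
  have hgrp : ∀ B : Matrix (Fin n) (Fin n) ℂ, Classical B → (∀ X, IsInfinitesimal B X → X ∈ 𝔤) →
      ∀ g : Fin N → (Matrix (Fin n) (Fin n) ℂ)ˣ, (∀ j, g j ∈ Pool.Agent.Y123.GN.GB (C * B * Cᵀ)) →
      ∀ x ∈ S, total 1 (fun j => (g j : Matrix (Fin n) (Fin n) ℂ)) * x ∈ S := fun B hB hB𝔤 g hg x hx =>
    Pool.Agent.Helper880_R3.grp_stab hS' hC (fun Y hY => hst Y fun j => hB𝔤 _ (hY j)) hB g hg hx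
  refine ⟨hst, ?_, ?_⟩
  · intro B hB hB𝔤 Q μ x₀ X Y hX hY hd hx
    exact Pool.Agent.Helper880_R3.fibre_full hS' (hgrp B hB hB𝔤) hX.1 hx hX.2 hY.2 fun j =>
      (hd j).imp (fun h => Pool.Agent.Helper880_R3.Spf_conj hC h) id
  · intro hr hC₀ B hB hB𝔤 Q w m δ hSF
    have hKalg : ∀ x ∈ K, IsAlgebraic ℚ x := by
      intro x hx
      have : NumberField K := { to_charZero := inferInstance, to_finiteDimensional := hK }
      have h6 : IsAlgebraic ℚ (⟨x, hx⟩ : K) := Algebra.IsAlgebraic.isAlgebraic _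
      exact h6.algebraMap (A := ℂ)
    rw [hC₀] at hmem
    exact Pool.Agent.Helper880_R3.absolute hKalg hr hS' hmem (hgrp B hB hB𝔤) hSF

end Pool.Agent.Results.MP_caab05_ag.AllFibresFewCentralPeriods
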